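import Pool.Agent.H.MP_af711c_co.A

set_option autoImplicit false

namespace Pool.Agent.H.MP_9caa86_co

open Set

/-- A monotone arc `x = f y`, `lo ≤ y ≤ hi`. -/
structure Arc where
  f : ℝ → ℝ
  lo : ℝ
  hi : ℝ
  cont : Continuous f
  le : lo ≤ hi

def Arc.S (A : Arc) : ℝ × ℝ := (A.f A.lo, A.lo)
def Arc.T (A : Arc) : ℝ × ℝ := (A.f A.hi, A.hi)

def LL (p q : ℝ × ℝ) : Prop := p.2 < q.2 ∨ (p.2 = q.2 ∧ p.1 < q.1)

open Classical in
noncomputable def ind (P : Prop) : ZMod 2 := if P then 1 else 0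

noncomputable def ll (p q : ℝ × ℝ) : ZMod 2 := ind (LL p q)

noncomputable def rr (A : Arc) (p : ℝ × ℝ) : ZMod 2 := ind (LL A.S p ∧ LL p A.T ∧ A.f p.2 < p.1)

def Dis (A B : Arc) : Prop := ∀ y, A.lo ≤ y → y ≤ A.hi → B.lo ≤ y → y ≤ B.hi → A.f y ≠ B.f y

theorem ind_t {P : Prop} (h : P) : ind P = 1 := if_pos h
theorem ind_f {P : Prop} (h : ¬ P) : ind P = 0 := if_neg h

theorem LL.le {p q : ℝ × ℝ} (h : LL p q) : p.2 ≤ q.2 := h.elim le_of_lt fun h => h.1.le

theorem LL.asymm {p q : ℝ × ℝ} (h : LL p q) : ¬ LL q p := by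
  rintro (a | ⟨a, b⟩) <;> rcases h with c | ⟨c, d⟩ <;> linarith

theorem LL.trans {p q r : ℝ × ℝ} (h : LL p q) (h' : LL q r) : LL p r := by
  rcases h with c | ⟨c, d⟩ <;> rcases h' with a | ⟨a, b⟩
  · exact Or.inl (by linarith)
  · exact Or.inl (by linarith)
  · exact Or.inl (by linarith)
  · exact Or.inr ⟨by linarith, by linarith⟩

theorem LL_tot {p q : ℝ × ℝ} (h : p ≠ q) : LL p q ∨ LL q p := by
  rcases lt_trichotomy p.2 q.2 with a | a | a
  · exact Or.inl (Or.inl a)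
  · rcases lt_trichotomy p.1 q.1 with b | b | b
    · exact Or.inl (Or.inr ⟨a, b⟩)
    · exact absurd (Prod.ext b a) h
    · exact Or.inr (Or.inr ⟨a.symm, b⟩)
  · exact Or.inr (Or.inl a)

theorem ll_add {p q : ℝ × ℝ} (h : p ≠ q) : ll p q = 1 + ll q p := by
  unfold ll
  rcases LL_tot h with a | a
  · rw [ind_t a, ind_f a.asymm]; rfl
  · rw [ind_t a, ind_f a.asymm]; rfl

theorem Dis.symm {A B : Arc} (h : Dis A B) : Dis B A := fun y a b c d => (h y c d a b).symm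

theorem Dis.sign {A B : Arc} (h : Dis A B) {y z : ℝ} (a1 : A.lo ≤ y) (b1 : B.lo ≤ y) (hyz : y ≤ z)
    (a2 : z ≤ A.hi) (b2 : z ≤ B.hi) : A.f y < B.f y ↔ A.f z < B.f z := by
  have key : ∀ {A B : Arc}, Dis A B → A.lo ≤ y → B.lo ≤ y → z ≤ A.hi → z ≤ B.hi →
      (A.f y < B.f y ∧ B.f z ≤ A.f z) → False := by
    intro A B h a1 b1 a2 b2 ⟨c, d⟩
    obtain ⟨w, ⟨w1, w2⟩, hw⟩ := intermediate_value_Icc hyz
      (f := fun t => A.f t - B.f t) (A.cont.sub B.cont).continuousOn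
      (show (0 : ℝ) ∈ Icc (A.f y - B.f y) (A.f z - B.f z) from ⟨by linarith, by linarith⟩)
    exact h w (by linarith) (by linarith) (by linarith) (by linarith) (by simpa [sub_eq_zero] using hw)
  constructor
  · intro c
    by_contra d
    exact key h a1 b1 a2 b2 ⟨c, not_lt.1 d⟩
  · intro c
    by_contra d
    have e := lt_of_le_of_ne (not_lt.1 d) (h.symm y b1 (by linarith) a1 (by linarith))
    exact key h.symm b1 a1 b2 a2 ⟨e, c.le⟩

theorem Arc.st (A : Arc) : ¬ LL A.T A.S := by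
  rintro (a | ⟨a, b⟩)
  · exact absurd A.le (not_le.2 a)
  · simp only [Arc.S, Arc.T] at a b
    rw [a] at b; exact lt_irrefl _ b

theorem Dis.nss {A B : Arc} (h : Dis A B) : A.S ≠ B.S := fun e => by
  obtain ⟨a, b⟩ := Prod.ext_iff.1 e
  simp only [Arc.S] at a b
  exact h A.lo le_rfl A.le b.ge (b ▸ B.le) (by rw [a, b])

theorem Dis.nst {A B : Arc} (h : Dis A B) : A.S ≠ B.T := fun e => by
  obtain ⟨a, b⟩ := Prod.ext_iff.1 e
  simp only [Arc.S, Arc.T] at a b
  exact h A.lo le_rfl A.le (b ▸ B.le) b.le (by rw [a, b])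

theorem Dis.ntt {A B : Arc} (h : Dis A B) : A.T ≠ B.T := fun e => by
  obtain ⟨a, b⟩ := Prod.ext_iff.1 e
  simp only [Arc.T] at a b
  exact h A.hi A.le le_rfl (b ▸ B.le) b.le (by rw [a, b])

theorem key0 {A B : Arc} (h : Dis A B) (h0 : LL A.S B.S) :
    rr A B.S + rr A B.T + rr B A.S + rr B A.T =
      ll A.S B.S + ll A.T B.S + ll A.S B.T + ll A.T B.T := by
  have sb : LL A.S B.T := by
    rcases LL_tot h.nst with a | a
    · exact a
    · exact absurd (a.trans h0) B.st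
  have e1 : rr B A.S = 0 := ind_f fun c => h0.asymm c.1
  unfold ll
  rw [e1, ind_t h0, ind_t sb]
  rcases LL_tot h.symm.nst with a | a
  · rw [ind_f a.asymm]
    rcases LL_tot h.ntt with b | b
    · have s := h.sign (y := B.lo) (z := A.hi) h0.le le_rfl a.le le_rfl b.le
      have n := h A.hi A.le le_rfl a.le b.le
      have e2 : rr A B.T = 0 := ind_f fun c => b.asymm c.2.1
      rw [e2, ind_t b]
      unfold rr
      by_cases c : A.f B.lo < B.f B.lo
      · rw [ind_t ⟨h0, a, c⟩, ind_f fun d => lt_asymm (s.1 c) d.2.2]; rfl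
      · rw [ind_f fun d => c d.2.2,
          ind_t ⟨a, b, lt_of_le_of_ne (not_lt.1 fun d => c (s.2 d)) n.symm⟩]; rfl
    · have s := h.sign (y := B.lo) (z := B.hi) h0.le le_rfl B.le b.le le_rfl
      have e2 : rr B A.T = 0 := ind_f fun c => b.asymm c.2.1
      rw [e2, ind_f b.asymm]
      unfold rr
      by_cases c : A.f B.lo < B.f B.lo
      · rw [ind_t ⟨h0, a, c⟩, ind_t ⟨sb, b, s.1 c⟩]; rfl
      · rw [ind_f fun d => c d.2.2, ind_f fun d => c (s.2 d.2.2)]; rfl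
  · have b : LL A.T B.T := by
      rcases LL_tot h.ntt with b | b
      · exact b
      · exact absurd (b.trans a) B.st
    rw [ind_t a, ind_t b]
    unfold rr
    rw [ind_f fun c => a.asymm c.2.1, ind_f fun c => b.asymm c.2.1, ind_f fun c => a.asymm c.1]
    rfl

theorem key {A B : Arc} (h : Dis A B) :
    rr A B.S + rr A B.T + rr B A.S + rr B A.T =
      ll A.S B.S + ll A.T B.S + ll A.S B.T + ll A.T B.T := by
  rcases LL_tot h.nss with a | a
  · exact key0 h a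
  · have := key0 h.symm a
    rw [ll_add h.nss, ll_add h.nst, ll_add h.symm.nst.symm, ll_add h.ntt]
    have two : (2 : ZMod 2) = 0 := rfl
    linear_combination this - 2 * two

/-- four arcs forming a `4`-cycle with sources `a b` and sinks `x y` -/
structure Cyc (a b x y : ℝ × ℝ) (ax ay bx bz : Arc) : Prop where
  s1 : ax.S = a
  s2 : ay.S = a
  s3 : bx.S = b
  s4 : bz.S = b
  t1 : ax.T = x
  t2 : ay.T = y
  t3 : bx.T = x
  t4 : bz.T = y

noncomputable def par (ax ay bx bz : Arc) (p : ℝ × ℝ) : ZMod 2 :=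
  rr ax p + rr ay p + rr bx p + rr bz p

variable {a b x y : ℝ × ℝ} {ax ay bx bz : Arc}

theorem Cyc.const (h : Cyc a b x y ax ay bx bz) {B : Arc} (h1 : Dis ax B) (h2 : Dis ay B)
    (h3 : Dis bx B) (h4 : Dis bz B) : par ax ay bx bz B.S = par ax ay bx bz B.T := by
  have k1 := key h1
  have k2 := key h2
  have k3 := key h3
  have k4 := key h4
  rw [h.s1, h.t1] at k1
  rw [h.s2, h.t2] at k2
  rw [h.s3, h.t3] at k3
  rw [h.s4, h.t4] at k4
  have two : (2 : ZMod 2) = 0 := rfl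
  unfold par
  linear_combination k1 + k2 + k3 + k4 + (ll a B.S + ll b B.S + ll x B.S + ll y B.S + ll a B.T +
    ll b B.T + ll x B.T + ll y B.T - rr B a - rr B b - rr B x - rr B y - rr ax B.T - rr ay B.T -
    rr bx B.T - rr bz B.T) * two

theorem Cyc.sep (h : Cyc a b x y ax ay bx bz) {c z : ℝ × ℝ} {cx cy az bw : Arc}
    (s5 : cx.S = c) (s6 : cy.S = c) (s7 : az.S = a) (s8 : bw.S = b)
    (t5 : cx.T = x) (t6 : cy.T = y) (t7 : az.T = z) (t8 : bw.T = z)
    (d1 : Dis ax bz) (d2 : Dis ay bx) (d3 : Dis ax cy) (d4 : Dis ay cx) (d5 : Dis bx cy)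
    (d6 : Dis bz cx) (d7 : Dis ax bw) (d8 : Dis ay bw) (d9 : Dis bx az) (d10 : Dis bz az)
    (d11 : Dis az cx) (d12 : Dis az cy) (d13 : Dis bw cx) (d14 : Dis bw cy) :
    par ax ay bx bz c = 1 + par ax ay bx bz z := by
  have k1 := key d1
  have k2 := key d2
  have k3 := key d3
  have k4 := key d4
  have k5 := key d5
  have k6 := key d6
  have k7 := key d7
  have k8 := key d8
  have k9 := key d9
  have k10 := key d10
  have k11 := key d11
  have k12 := key d12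
  have k13 := key d13
  have k14 := key d14
  have n2 := ll_add d2.ntt
  have n5 := ll_add d9.symm.nst.symm
  have n6 := ll_add d10.symm.nst.symm
  simp only [h.s1, h.s2, h.s3, h.s4, h.t1, h.t2, h.t3, h.t4, s5, s6, s7, s8, t5, t6, t7, t8] at *
  unfold par
  linear_combination (norm := (ring_nf; reduce_mod_char)) k1 + k2 + k3 + k4 + k5 + k6 + k7 + k8 +
    k9 + k10 + k11 + k12 + k13 + k14 + n2 + n5 + n6

theorem ind_ne {P : Prop} (h : ind P ≠ 0) : P := by
  by_contra c; exact h (ind_f c)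

theorem par_left {p : ℝ × ℝ} (h : par ax ay bx bz p = 1) : ∃ A, (A = ax ∨ A = ay ∨ A = bx ∨ A = bz)
    ∧ A.lo ≤ p.2 ∧ p.2 ≤ A.hi ∧ A.f p.2 < p.1 := by
  have k : ∀ A : Arc, rr A p ≠ 0 → A.lo ≤ p.2 ∧ p.2 ≤ A.hi ∧ A.f p.2 < p.1 := fun A e =>
    ⟨(ind_ne e).1.le, (ind_ne e).2.1.le, (ind_ne e).2.2⟩
  by_cases h1 : rr ax p = 0
  · by_cases h2 : rr ay p = 0
    · by_cases h3 : rr bx p = 0
      · by_cases h4 : rr bz p = 0
        · rw [par, h1, h2, h3, h4] at h; exact absurd h (by decide)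
        · exact ⟨_, by simp, k _ h4⟩
      · exact ⟨_, by simp, k _ h3⟩
    · exact ⟨_, by simp, k _ h2⟩
  · exact ⟨_, by simp, k _ h1⟩

theorem Cyc.low (h : Cyc a b x y ax ay bx bz) (l1 : ax.lo < ax.hi) (l2 : ay.lo < ay.hi)
    (l3 : bx.lo < bx.hi) (l4 : bz.lo < bz.hi) {p : ℝ × ℝ} (hp : par ax ay bx bz p = 1) :
    a.2 < p.2 ∨ b.2 < p.2 := by
  by_contra c
  push Not at c
  have k : ∀ A : Arc, A.lo < A.hi → p.2 ≤ A.S.2 → rr A p = ll A.S p := by
    intro A l e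
    unfold rr ll
    congr 1
    refine propext ⟨fun d => d.1, fun d => ⟨d, Or.inl ?_, ?_⟩⟩
    · have := d.le
      simp only [Arc.S, Arc.T] at *
      linarith
    · rcases d with d | ⟨d, d'⟩
      · linarith
      · simp only [Arc.S] at d d'
        rwa [← d]
  rw [par, k _ l1 (h.s1 ▸ c.1), k _ l2 (h.s2 ▸ c.1), k _ l3 (h.s3 ▸ c.2), k _ l4 (h.s4 ▸ c.2),
    h.s1, h.s2, h.s3, h.s4] at hp
  have two : (2 : ZMod 2) = 0 := rfl
  have : (1 : ZMod 2) = 0 := by linear_combination (ll a p + ll b p) * two - hp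
  exact absurd this (by decide)

end Pool.Agent.H.MP_9caa86_co
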