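import Pool.Agent.H.MP_9caa86_co.A

set_option autoImplicit false

namespace Pool.Agent.H.MP_9caa86_co

open Set

def Ed (u v : ℕ) : Prop := (u / 2) % 2 = 0 ∧ (v / 2 = u / 2 + 1 ∨ u / 2 = v / 2 + 1)

structure Sys (n : ℕ) (p : ℕ → ℝ × ℝ) (A : ℕ → ℕ → Arc) : Prop where
  s : ∀ u v, u < n → v < n → Ed u v → (A u v).S = p u ∧ (A u v).T = p v ∧ (A u v).lo < (A u v).hi
  dis : ∀ u v u' v', u < n → v < n → u' < n → v' < n → Ed u v → Ed u' v' → u ≠ u' → v ≠ v' →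
    Dis (A u v) (A u' v')

noncomputable def PP (A : ℕ → ℕ → Arc) (i : ℕ) (q : ℝ × ℝ) : ZMod 2 :=
  par (A (4 * i) (4 * i + 2)) (A (4 * i) (4 * i + 3)) (A (4 * i + 1) (4 * i + 2))
    (A (4 * i + 1) (4 * i + 3)) q

variable {n : ℕ} {p : ℕ → ℝ × ℝ} {A : ℕ → ℕ → Arc}

theorem Sys.cyc (h : Sys n p A) {i : ℕ} (hi : 4 * i + 3 < n) :
    Cyc (p (4 * i)) (p (4 * i + 1)) (p (4 * i + 2)) (p (4 * i + 3)) (A (4 * i) (4 * i + 2))
      (A (4 * i) (4 * i + 3)) (A (4 * i + 1) (4 * i + 2)) (A (4 * i + 1) (4 * i + 3)) := by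
  have a := h.s (4 * i) (4 * i + 2) (by omega) (by omega) (by unfold Ed; omega)
  have b := h.s (4 * i) (4 * i + 3) (by omega) (by omega) (by unfold Ed; omega)
  have c := h.s (4 * i + 1) (4 * i + 2) (by omega) (by omega) (by unfold Ed; omega)
  have d := h.s (4 * i + 1) (4 * i + 3) (by omega) (by omega) (by unfold Ed; omega)
  exact ⟨a.1, b.1, c.1, d.1, a.2.1, b.2.1, c.2.1, d.2.1⟩

theorem Sys.on (h : Sys n p A) {i u v : ℕ} (hi : 4 * i + 3 < n) (hu : u < n) (hv : v < n)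
    (e : Ed u v) (nu : u / 4 ≠ i) (nv : v / 4 ≠ i) {y : ℝ} (y1 : (A u v).lo ≤ y)
    (y2 : y ≤ (A u v).hi) : PP A i (p u) = PP A i ((A u v).f y, y) := by
  let B : Arc := ⟨(A u v).f, (A u v).lo, y, (A u v).cont, y1⟩
  have k : ∀ u' v', u' / 4 = i → v' / 4 = i → Ed u' v' → Dis (A u' v') B := by
    intro u' v' a b c w w1 w2 w3 w4
    exact h.dis u' v' u v (by omega) (by omega) hu hv c e (by omega) (by omega) w w1 w2 w3
      (le_trans w4 y2)
  have := (h.cyc hi).const (B := B) (k _ _ (by omega) (by omega) (by unfold Ed; omega))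
    (k _ _ (by omega) (by omega) (by unfold Ed; omega))
    (k _ _ (by omega) (by omega) (by unfold Ed; omega))
    (k _ _ (by omega) (by omega) (by unfold Ed; omega))
  rw [← (h.s u v hu hv e).1]
  exact this

theorem Sys.adj (h : Sys n p A) {i w w' : ℕ} (hi : 4 * i + 3 < n) (hw : w' < n)
    (e : w / 2 + 1 = w' / 2) (nu : w / 4 ≠ i) (nv : w' / 4 ≠ i) :
    PP A i (p w) = PP A i (p w') := by
  have k : ∀ u v, u < n → v < n → Ed u v → u / 4 ≠ i → v / 4 ≠ i →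
      PP A i (p u) = PP A i (p v) := by
    intro u v hu hv e nu nv
    rw [h.on hi hu hv e nu nv (A u v).le le_rfl, ← (h.s u v hu hv e).2.1]; rfl
  by_cases c : (w / 2) % 2 = 0
  · exact k _ _ (by omega) hw (by unfold Ed; omega) nu nv
  · exact (k _ _ hw (by omega) (by unfold Ed; omega) nv nu).symm

theorem Sys.down (h : Sys n p A) {i : ℕ} (hi : 4 * i + 3 < n) (d : ℕ) :
    ∀ w, w / 2 + d + 1 = 2 * i → PP A i (p w) = PP A i (p (4 * i - 2)) := by
  induction d with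
  | zero =>
    intro w hw
    rw [← h.adj (w := 4 * i - 4) (w' := w) hi (by omega) (by omega) (by omega) (by omega)]
    exact h.adj hi (by omega) (by omega) (by omega) (by omega)
  | succ d ih =>
    intro w hw
    rw [h.adj (w := w) (w' := 2 * (w / 2 + 1)) hi (by omega) (by omega) (by omega) (by omega)]
    exact ih _ (by omega)

theorem Sys.up (h : Sys n p A) {i : ℕ} (hi : 4 * i + 6 < n) (d : ℕ) :
    ∀ w, w < n → w / 2 = 2 * i + 2 + d → PP A i (p w) = PP A i (p (4 * i + 4)) := by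
  induction d with
  | zero =>
    intro w _ hw
    rw [h.adj (w := w) (w' := 4 * i + 6) (by omega) hi (by omega) (by omega) (by omega)]
    exact (h.adj (by omega) hi (by omega) (by omega) (by omega)).symm
  | succ d ih =>
    intro w hn hw
    rw [← h.adj (w := 2 * (w / 2 - 1)) (w' := w) (by omega) hn (by omega) (by omega) (by omega)]
    exact ih _ (by omega) (by omega)

theorem Sys.sep (h : Sys n p A) {i : ℕ} (h1 : 1 ≤ i) (hi : 4 * i + 4 < n) :
    PP A i (p (4 * i + 4)) = 1 + PP A i (p (4 * i - 2)) := by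
  have a := h.s (4 * i + 4) (4 * i + 2) (by omega) (by omega) (by unfold Ed; omega)
  have b := h.s (4 * i + 4) (4 * i + 3) (by omega) (by omega) (by unfold Ed; omega)
  have c := h.s (4 * i) (4 * i - 2) (by omega) (by omega) (by unfold Ed; omega)
  have d := h.s (4 * i + 1) (4 * i - 2) (by omega) (by omega) (by unfold Ed; omega)
  refine (h.cyc (by omega)).sep a.1 b.1 c.1 d.1 a.2.1 b.2.1 c.2.1 d.2.1 ?_ ?_ ?_ ?_ ?_ ?_ ?_ ?_ ?_
    ?_ ?_ ?_ ?_ ?_ <;>
  exact h.dis _ _ _ _ (by omega) (by omega) (by omega) (by omega) (by unfold Ed; omega)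
    (by unfold Ed; omega) (by omega) (by omega)

theorem Sys.nest (h : Sys n p A) {i j : ℕ} (h1 : 1 ≤ i) (hij : i < j) (hj : 4 * j + 4 < n)
    (ht : PP A i (p (4 * i + 4)) = 1 ↔ PP A j (p (4 * j + 4)) = 1) :
    ∃ k l, ((k = i ∧ l = j) ∨ (k = j ∧ l = i)) ∧ ∀ w, w / 2 = 2 * l → PP A k (p w) = 1 := by
  by_cases c : PP A i (p (4 * i + 4)) = 1
  · refine ⟨i, j, Or.inl ⟨rfl, rfl⟩, fun w hw => ?_⟩
    rw [h.up (by omega) (2 * j - 2 * i - 2) w (by omega) (by omega), c]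
  · refine ⟨j, i, Or.inr ⟨rfl, rfl⟩, fun w hw => ?_⟩
    rw [h.down (by omega) (2 * j - 2 * i - 1) w (by omega)]
    have a := h.sep (i := j) (by omega) hj
    have b := mt ht.2 c
    rw [a] at b
    revert b
    generalize PP A j (p (4 * j - 2)) = t
    revert t; decide

theorem cnt (M : ℕ) (t : ℕ → Prop) (X : ℕ → ℤ) (x0 x1 : ℝ) (hM : 1 ≤ M)
    (h : ∀ i j, 1 ≤ i → i < j → j ≤ M → (t i ↔ t j) → X i ≠ X j)
    (hb : ∀ i, 1 ≤ i → i ≤ M → x0 ≤ X i ∧ (X i : ℝ) ≤ x1) : (M : ℝ) ≤ 2 * (x1 - x0 + 1) := by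
  classical
  have := Finset.card_le_card_of_injOn (s := Finset.Icc 1 M)
    (t := (Finset.univ : Finset Bool) ×ˢ Finset.Icc ⌈x0⌉ ⌊x1⌋) (fun i => (decide (t i), X i))
    (fun i hi => by
      obtain ⟨a, b⟩ := Finset.mem_Icc.1 hi
      simp only [Finset.coe_product, Finset.coe_univ, Finset.coe_Icc, mem_prod, mem_univ,
        mem_Icc, true_and]
      exact ⟨Int.ceil_le.2 (hb i a b).1, Int.le_floor.2 (hb i a b).2⟩)
    (fun i hi j hj e => by
      obtain ⟨a, b⟩ := Finset.mem_Icc.1 hi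
      obtain ⟨c, d⟩ := Finset.mem_Icc.1 hj
      obtain ⟨e1, e2⟩ := Prod.ext_iff.1 e
      simp only [decide_eq_decide] at e1 e2
      rcases lt_trichotomy i j with f | f | f
      · exact absurd e2 (h i j a f d e1)
      · exact f
      · exact absurd e2.symm (h j i c f b e1.symm))
  rw [Finset.card_product, Nat.card_Icc, Int.card_Icc] at this
  have k := hb 1 le_rfl hM
  have k1 : ⌈x0⌉ ≤ ⌊x1⌋ := (Int.ceil_le.2 k.1).trans (Int.le_floor.2 k.2)
  have k2 : ((⌊x1⌋ + 1 - ⌈x0⌉).toNat : ℤ) = ⌊x1⌋ + 1 - ⌈x0⌉ := Int.toNat_of_nonneg (by omega)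
  have k3 : (M : ℤ) ≤ 2 * (⌊x1⌋ + 1 - ⌈x0⌉) := by
    simp only [Finset.card_univ, Fintype.card_bool] at this
    omega
  have k4 : (M : ℝ) ≤ 2 * (⌊x1⌋ + 1 - ⌈x0⌉) := by exact_mod_cast k3
  linarith [Int.floor_le x1, Int.le_ceil x0]

theorem Sys.main (h : Sys n p A) (hn : 32 ≤ n) (hy : ∀ u < n, ∃ z : ℤ, (p u).2 = z)
    (hx : ∀ u v, u < n → v < n → Ed u v → ∃ μ : ℤ,
      (∃ y, (A u v).lo ≤ y ∧ y ≤ (A u v).hi ∧ (A u v).f y = μ) ∧
      ∀ y, (A u v).lo ≤ y → y ≤ (A u v).hi → (μ : ℝ) ≤ (A u v).f y)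
    {x0 x1 y0 y1 : ℝ} (hb : ∀ u v, u < n → v < n → Ed u v → ∀ y, (A u v).lo ≤ y →
      y ≤ (A u v).hi → (x0 ≤ (A u v).f y ∧ (A u v).f y ≤ x1) ∧ y0 ≤ y ∧ y ≤ y1) :
    (n : ℝ) / 16 ≤ x1 - x0 ∧ (n : ℝ) / 16 ≤ y1 - y0 := by
  obtain ⟨M, hM⟩ : ∃ M, M = (n - 5) / 4 := ⟨_, rfl⟩
  have hX : ∀ j : ℕ, ∃ X : ℤ, 4 * j + 3 < n →
      (∃ u v, u / 2 = 2 * j ∧ v / 2 = 2 * j + 1 ∧
        ∃ y, (A u v).lo ≤ y ∧ y ≤ (A u v).hi ∧ (A u v).f y = X) ∧
      ∀ u v, u / 2 = 2 * j → v / 2 = 2 * j + 1 →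
        ∀ y, (A u v).lo ≤ y → y ≤ (A u v).hi → (X : ℝ) ≤ (A u v).f y := by
    intro j
    by_cases hj : 4 * j + 3 < n
    · have : ∀ e : Fin 2 × Fin 2, ∃ μ : ℤ, (∃ y, (A (4 * j + e.1) (4 * j + 2 + e.2)).lo ≤ y ∧
          y ≤ (A (4 * j + e.1) (4 * j + 2 + e.2)).hi ∧ (A (4 * j + e.1) (4 * j + 2 + e.2)).f y = μ)
          ∧ ∀ y, (A (4 * j + e.1) (4 * j + 2 + e.2)).lo ≤ y →
          y ≤ (A (4 * j + e.1) (4 * j + 2 + e.2)).hi →
          (μ : ℝ) ≤ (A (4 * j + e.1) (4 * j + 2 + e.2)).f y := fun e =>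
        hx _ _ (by omega) (by omega) (by unfold Ed; omega)
      choose μ hμ using this
      obtain ⟨e, he⟩ := Finite.exists_min μ
      refine ⟨μ e, fun _ => ⟨⟨_, _, by omega, by omega, (hμ e).1⟩, fun u v hu hv y a b => ?_⟩⟩
      have k := (hμ (⟨u - 4 * j, by omega⟩, ⟨v - (4 * j + 2), by omega⟩)).2 y
      simp only at k
      rw [show 4 * j + (u - 4 * j) = u by omega,
        show 4 * j + 2 + (v - (4 * j + 2)) = v by omega] at k
      exact le_trans (by exact_mod_cast he _) (k a b)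
    · exact ⟨0, fun c => absurd c hj⟩
  have hY : ∀ j : ℕ, ∃ Y : ℤ, 4 * j + 3 < n → (∃ u, u / 2 = 2 * j ∧ (p u).2 = Y) ∧
      (Y : ℝ) ≤ (p (4 * j)).2 ∧ (Y : ℝ) ≤ (p (4 * j + 1)).2 := by
    intro j
    by_cases hj : 4 * j + 3 < n
    · obtain ⟨a, ha⟩ := hy (4 * j) (by omega)
      obtain ⟨b, hb⟩ := hy (4 * j + 1) (by omega)
      rcases le_total (a : ℝ) b with c | c
      · exact ⟨a, fun _ => ⟨⟨_, by omega, ha⟩, ha.ge, hb ▸ c⟩⟩
      · exact ⟨b, fun _ => ⟨⟨_, by omega, hb⟩, ha ▸ c, hb.ge⟩⟩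
    · exact ⟨0, fun c => absurd c hj⟩
  choose X hX using hX
  choose Y hY using hY
  have ins : ∀ k l, k ≠ l → 4 * k + 3 < n → 4 * l + 3 < n → (∀ w, w / 2 = 2 * l → PP A k (p w) = 1)
      → X k < X l ∧ Y k < Y l := by
    intro k l hkl hk hl hw
    constructor
    · obtain ⟨u, v, hu, hv, y, a, b, c⟩ := (hX l hl).1
      have e := hw u hu
      rw [h.on hk (by omega) (by omega) (by unfold Ed; omega) (by omega) (by omega) a b] at e
      obtain ⟨B, hB, d1, d2, d3⟩ := par_left e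
      simp only at d1 d2 d3
      have : (X k : ℝ) ≤ B.f y := by
        rcases hB with rfl | rfl | rfl | rfl <;>
          exact (hX k hk).2 _ _ (by omega) (by omega) y d1 d2
      have : (X k : ℝ) < X l := by linarith
      exact_mod_cast this
    · obtain ⟨u, hu, c⟩ := (hY l hl).1
      have e := (h.cyc hk).low (h.s _ _ (by omega) (by omega) (by unfold Ed; omega)).2.2
        (h.s _ _ (by omega) (by omega) (by unfold Ed; omega)).2.2
        (h.s _ _ (by omega) (by omega) (by unfold Ed; omega)).2.2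
        (h.s _ _ (by omega) (by omega) (by unfold Ed; omega)).2.2 (hw u hu)
      have := (hY k hk).2
      have : (Y k : ℝ) < Y l := by rcases e with e | e <;> linarith [this.1, this.2]
      exact_mod_cast this
  have ne : ∀ i j, 1 ≤ i → i < j → j ≤ M →
      (PP A i (p (4 * i + 4)) = 1 ↔ PP A j (p (4 * j + 4)) = 1) → X i ≠ X j ∧ Y i ≠ Y j := by
    intro i j a b c d
    obtain ⟨k, l, ⟨rfl, rfl⟩ | ⟨rfl, rfl⟩, e⟩ := h.nest a b (by omega) d
    · have := ins k l (by omega) (by omega) (by omega) e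
      omega
    · have := ins k l (by omega) (by omega) (by omega) e
      omega
  have c1 := cnt M _ X x0 x1 (by omega) (fun i j a b c d => (ne i j a b c d).1) fun i a b => by
    obtain ⟨u, v, hu, hv, y, c, d, e⟩ := (hX i (by omega)).1
    rw [← e]
    exact (hb u v (by omega) (by omega) (by unfold Ed; omega) y c d).1
  have c2 := cnt M _ Y y0 y1 (by omega) (fun i j a b c d => (ne i j a b c d).2) fun i a b => by
    obtain ⟨u, hu, e⟩ := (hY i (by omega)).1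
    have f : Ed u (4 * i + 2) := by unfold Ed; omega
    rw [← e, ← (h.s u (4 * i + 2) (by omega) (by omega) f).1]
    exact (hb u _ (by omega) (by omega) f _ le_rfl (A _ _).le).2
  have k : (n : ℝ) ≤ 4 * M + 8 := by exact_mod_cast (by omega : n ≤ 4 * M + 8)
  have k' : (32 : ℝ) ≤ n := by exact_mod_cast hn
  constructor <;> linarith

end Pool.Agent.H.MP_9caa86_co
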