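import Pool.Agent.H.MP_9caa86_co.B

set_option autoImplicit false

namespace Pool.Agent.H.MP_9caa86_co

open Set

/-- A grid point as a point of the plane. -/
def toR (z : ℤ × ℤ) : ℝ × ℝ := ((z.1 : ℝ), (z.2 : ℝ))

/-- The polygonal chain `pt 0, pt 1, …, pt len`. -/
def chain (len : ℕ) (pt : ℕ → ℤ × ℤ) : Set (ℝ × ℝ) :=
  {z | ∃ i < len, z ∈ segment ℝ (toR (pt i)) (toR (pt (i + 1)))}

/-- Upward planar poly-line grid drawing of the digraph with edge relation `E`. -/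
structure Drawing {n : ℕ} (E : Fin n → Fin n → Prop) where
  pos : Fin n → ℤ × ℤ
  len : Fin n → Fin n → ℕ
  pt : Fin n → Fin n → ℕ → ℤ × ℤ
  inj : Function.Injective pos
  ends : ∀ u v, E u v → pt u v 0 = pos u ∧ pt u v (len u v) = pos v
  up : ∀ u v, E u v → ∀ i < len u v, (pt u v i).2 < (pt u v (i + 1)).2
  planar : ∀ u v u' v', E u v → E u' v' → (u, v) ≠ (u', v') →
    ∀ z ∈ chain (len u v) (pt u v) ∩ chain (len u' v') (pt u' v'),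
      ∃ w, (w = u ∨ w = v) ∧ (w = u' ∨ w = v') ∧ z = toR (pos w)

/-- Every edge goes from the class `S` to its complement. -/
def BipDAG {n : ℕ} (E : Fin n → Fin n → Prop) : Prop :=
  ∃ S : Set (Fin n), ∀ u v, E u v → u ∈ S ∧ v ∉ S

open Pool.Agent.H.MP_af711c_co in
theorem arc_of (len : ℕ) (pt : ℕ → ℤ × ℤ) (hl : 0 < len)
    (up : ∀ i < len, (pt i).2 < (pt (i + 1)).2) : ∃ A : Arc, A.S = toR (pt 0) ∧
      A.T = toR (pt len) ∧ A.lo < A.hi ∧ (∀ y, A.lo ≤ y → y ≤ A.hi → (A.f y, y) ∈ chain len pt) ∧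
      ∃ μ : ℤ, (∃ y, A.lo ≤ y ∧ y ≤ A.hi ∧ A.f y = μ) ∧
        ∀ y, A.lo ≤ y → y ≤ A.hi → (μ : ℝ) ≤ A.f y := by
  let P : ℕ → ℝ × ℝ := fun i => (((pt i).2 : ℝ), ((pt i).1 : ℝ))
  obtain ⟨F, hF⟩ := exists_ch P len fun i hi => by simp only [P]; exact_mod_cast up i hi
  have lt := smono_of hF.2.1 hl le_rfl
  have sw : ∀ y, (P 0).1 ≤ y → y ≤ (P len).1 → ∃ i < len, ∃ a b : ℝ, 0 ≤ a ∧ 0 ≤ b ∧ a + b = 1 ∧
      a • toR (pt i) + b • toR (pt (i + 1)) = (F y, y) := by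
    intro y a b
    obtain ⟨i, hi, _, _, u, w, hu, hw, huw, e⟩ := hF.loc hl a b
    obtain ⟨e1, e2⟩ := Prod.ext_iff.1 e
    exact ⟨i, hi, u, w, hu, hw, huw, Prod.ext e2 e1⟩
  obtain ⟨i, hi, hm⟩ := Finset.exists_min_image (Finset.range (len + 1)) (fun i => (pt i).1)
    ⟨0, by simp⟩
  have hi' : i ≤ len := by simpa [Nat.lt_succ_iff] using hi
  refine ⟨⟨F, (P 0).1, (P len).1, hF.1, lt.le⟩, Prod.ext (hF.vert hl (Nat.zero_le _)).symm rfl,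
    Prod.ext (hF.vert hl le_rfl).symm rfl, lt, fun y a b => sw y a b, (pt i).1,
    ⟨(P i).1, mono_of hF.2.1 (Nat.zero_le _) hi', mono_of hF.2.1 hi' le_rfl,
      (hF.vert hl hi').symm⟩, fun y a b => ?_⟩
  obtain ⟨j, hj, u, w, hu, hw, huw, e⟩ := sw y a b
  have e1 := congrArg Prod.fst e
  simp only [toR, Prod.fst_add, Prod.smul_fst, smul_eq_mul] at e1
  have a1 : ((pt i).1 : ℝ) ≤ (pt j).1 := by exact_mod_cast hm j (Finset.mem_range.2 (by omega))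
  have a2 : ((pt i).1 : ℝ) ≤ (pt (j + 1)).1 := by
    exact_mod_cast hm (j + 1) (Finset.mem_range.2 (by omega))
  change _ ≤ F y
  rw [← e1]
  obtain rfl : u = 1 - w := by linarith
  nlinarith

theorem lower {n : ℕ} (hn : 32 ≤ n) (D : Drawing fun u v : Fin n => Ed u v) {x0 x1 y0 y1 : ℝ}
    (hb : ∀ u v : Fin n, Ed u v → chain (D.len u v) (D.pt u v) ⊆ Icc x0 x1 ×ˢ Icc y0 y1) :
    (n : ℝ) / 16 ≤ x1 - x0 ∧ (n : ℝ) / 16 ≤ y1 - y0 := by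
  have : ∀ u v : ℕ, ∃ A : Arc, ∀ (hu : u < n) (hv : v < n), Ed u v →
      A.S = toR (D.pos ⟨u, hu⟩) ∧ A.T = toR (D.pos ⟨v, hv⟩) ∧ A.lo < A.hi ∧
      (∀ y, A.lo ≤ y → y ≤ A.hi →
        (A.f y, y) ∈ chain (D.len ⟨u, hu⟩ ⟨v, hv⟩) (D.pt ⟨u, hu⟩ ⟨v, hv⟩)) ∧
      ∃ μ : ℤ, (∃ y, A.lo ≤ y ∧ y ≤ A.hi ∧ A.f y = μ) ∧
        ∀ y, A.lo ≤ y → y ≤ A.hi → (μ : ℝ) ≤ A.f y := by
    intro u v
    by_cases c : u < n ∧ v < n ∧ Ed u v
    · obtain ⟨hu, hv, e⟩ := c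
      obtain ⟨e1, e2⟩ := D.ends ⟨u, hu⟩ ⟨v, hv⟩ e
      have hl : 0 < D.len ⟨u, hu⟩ ⟨v, hv⟩ := by
        by_contra c
        rw [show D.len ⟨u, hu⟩ ⟨v, hv⟩ = 0 by omega, e1] at e2
        have := congrArg Fin.val (D.inj e2)
        unfold Ed at e
        simp only at this
        omega
      obtain ⟨A, hA⟩ := arc_of _ _ hl (D.up _ _ e)
      rw [e1, e2] at hA
      exact ⟨A, fun _ _ _ => hA⟩
    · exact ⟨⟨id, 0, 0, continuous_id, le_rfl⟩, fun a b d => absurd ⟨a, b, d⟩ c⟩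
  choose A hA using this
  let p : ℕ → ℝ × ℝ := fun u => if h : u < n then toR (D.pos ⟨u, h⟩) else 0
  have hp : ∀ u (h : u < n), p u = toR (D.pos ⟨u, h⟩) := fun u h => dif_pos h
  have S : Sys n p A := by
    refine ⟨fun u v hu hv e => ?_, fun u v u' v' hu hv hu' hv' e e' a b y y1 y2 y3 y4 c => ?_⟩
    · rw [hp u hu, hp v hv]
      exact ⟨(hA u v hu hv e).1, (hA u v hu hv e).2.1, (hA u v hu hv e).2.2.1⟩
    · obtain ⟨w, w1, w2, _⟩ := D.planar ⟨u, hu⟩ ⟨v, hv⟩ ⟨u', hu'⟩ ⟨v', hv'⟩ e e'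
        (fun d => a (congrArg (fun z : Fin n × Fin n => z.1.val) d)) _
        ⟨(hA u v hu hv e).2.2.2.1 y y1 y2, c ▸ (hA u' v' hu' hv' e').2.2.2.1 y y3 y4⟩
      unfold Ed at e e'
      rcases w1 with rfl | rfl <;> rcases w2 with w2 | w2 <;>
        (have := congrArg Fin.val w2; simp only at this; omega)
  exact S.main hn (fun u hu => ⟨_, by rw [hp u hu]; rfl⟩)
    (fun u v hu hv e => (hA u v hu hv e).2.2.2.2) fun u v hu hv e y a b =>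
    hb ⟨u, hu⟩ ⟨v, hv⟩ e ((hA u v hu hv e).2.2.2.1 y a b)

def sg (u : ℕ) : ℤ := if u % 2 = 0 then 1 else -1

def ps (u : ℕ) : ℤ × ℤ := if (u / 2) % 2 = 0 then (0, sg u * ((u / 4 : ℕ) + 1))
  else (sg u * ((u / 4 : ℕ) + 1), 3 * ((u / 4 : ℕ) + 1))

theorem ps_inj {u v : ℕ} (h : ps u = ps v) : u = v := by
  unfold ps sg at h
  split_ifs at h <;> simp only [Prod.mk.injEq] at h <;> omega

theorem alg {a b a' b' i j i' j' σ τ σ' τ' : ℝ} (ha : 0 ≤ a) (hb : 0 ≤ b) (ha' : 0 ≤ a')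
    (hb' : 0 ≤ b') (h1 : a + b = 1) (h2 : a' + b' = 1) (pi : 0 < i) (pj : 0 < j) (hi : i ≤ i')
    (hj : j ≤ j') (s1 : σ = 1 ∨ σ = -1) (s2 : σ' = 1 ∨ σ' = -1) (t1 : τ = 1 ∨ τ = -1)
    (t2 : τ' = 1 ∨ τ' = -1) (ex : b * (τ * j) = b' * (τ' * j'))
    (ey : a * (σ * i) + b * (3 * j) = a' * (σ' * i') + b' * (3 * j')) :
    (b = 0 ∨ (j = j' ∧ τ = τ')) ∧ (a = 0 ∨ (i = i' ∧ σ = σ')) := by
  have p1 := mul_nonneg hb pj.le
  have p2 := mul_nonneg hb' (pj.le.trans hj)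
  have p3 := mul_nonneg ha pi.le
  have p4 := mul_nonneg ha' (pi.le.trans hi)
  have e1 : b * j = b' * j' := by
    rcases t1 with rfl | rfl <;> rcases t2 with rfl | rfl <;> linarith
  have e2 : a * i = a' * i' := by
    rcases s1 with rfl | rfl <;> rcases s2 with rfl | rfl <;> linarith
  have l1 : b' ≤ b := by
    refine le_of_mul_le_mul_right ?_ pj
    nlinarith
  have l2 : a' ≤ a := by
    refine le_of_mul_le_mul_right ?_ pi
    nlinarith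
  obtain rfl : b = b' := by linarith
  obtain rfl : a = a' := by linarith
  constructor
  · rcases hb.eq_or_lt with c | c
    · exact Or.inl c.symm
    · obtain rfl : j = j' := mul_left_cancel₀ c.ne' e1
      exact Or.inr ⟨rfl, mul_right_cancel₀ pj.ne' (mul_left_cancel₀ c.ne' ex)⟩
  · rcases ha.eq_or_lt with c | c
    · exact Or.inl c.symm
    · obtain rfl : i = i' := mul_left_cancel₀ c.ne' e2
      refine Or.inr ⟨rfl, mul_right_cancel₀ pi.ne' (mul_left_cancel₀ c.ne' (by linarith))⟩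

theorem sg_r (u : ℕ) : (sg u : ℝ) = 1 ∨ (sg u : ℝ) = -1 := by
  unfold sg; split_ifs <;> simp

theorem sg_eq {u v : ℕ} (h : (sg u : ℝ) = sg v) : u % 2 = v % 2 := by
  have : sg u = sg v := by exact_mod_cast h
  unfold sg at this
  split_ifs at this <;> omega

theorem pl {u v u' v' : ℕ} (e : Ed u v) (e' : Ed u' v') (h1 : u / 4 ≤ u' / 4) (h2 : v / 4 ≤ v' / 4)
    {z : ℝ × ℝ} (z1 : z ∈ segment ℝ (toR (ps u)) (toR (ps v)))
    (z2 : z ∈ segment ℝ (toR (ps u')) (toR (ps v'))) :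
    (u = u' ∧ v = v') ∨ (u = u' ∧ z = toR (ps u)) ∨ (v = v' ∧ z = toR (ps v)) := by
  obtain ⟨a, b, ha, hb, hab, rfl⟩ := z1
  obtain ⟨a', b', ha', hb', hab', k⟩ := z2
  unfold Ed at e e'
  have f1 : ∀ u, (u / 2) % 2 = 0 → toR (ps u) = (0, (sg u : ℝ) * ((u / 4 : ℕ) + 1)) := by
    intro u h; unfold ps toR; rw [if_pos h]; simp only; push_cast; rfl
  have f2 : ∀ u, (u / 2) % 2 ≠ 0 →
      toR (ps u) = ((sg u : ℝ) * ((u / 4 : ℕ) + 1), 3 * (((u / 4 : ℕ) : ℝ) + 1)) := by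
    intro u h; unfold ps toR; rw [if_neg h]; simp only; push_cast; rfl
  have k' := k
  rw [f1 u e.1, f1 u' e'.1, f2 v (by omega), f2 v' (by omega)] at k'
  obtain ⟨k1, k2⟩ := Prod.ext_iff.1 k'
  simp only [Prod.fst_add, Prod.snd_add, Prod.smul_fst, Prod.smul_snd, smul_eq_mul, mul_zero,
    zero_add] at k1 k2
  have := alg ha hb ha' hb' hab hab' (i := ((u / 4 : ℕ) : ℝ) + 1) (j := ((v / 4 : ℕ) : ℝ) + 1)
    (by positivity) (by positivity) (i' := ((u' / 4 : ℕ) : ℝ) + 1) (j' := ((v' / 4 : ℕ) : ℝ) + 1)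
    (by exact_mod_cast Nat.succ_le_succ h1) (by exact_mod_cast Nat.succ_le_succ h2)
    (sg_r u) (sg_r u') (sg_r v) (sg_r v') k1.symm k2.symm
  have g : ∀ u u' : ℕ, ((u / 4 : ℕ) : ℝ) + 1 = ((u' / 4 : ℕ) : ℝ) + 1 ∧ (sg u : ℝ) = sg u' →
      u / 4 = u' / 4 ∧ u % 2 = u' % 2 := fun u u' c =>
    ⟨by exact_mod_cast add_right_cancel c.1, sg_eq c.2⟩
  obtain ⟨c | c, d | d⟩ := this
  · linarith
  · have := g _ _ d
    refine Or.inr (Or.inl ⟨by omega, ?_⟩)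
    rw [c, show a = 1 by linarith]; simp
  · have := g _ _ c
    refine Or.inr (Or.inr ⟨by omega, ?_⟩)
    rw [d, show b = 1 by linarith]; simp
  · have := g _ _ c
    have := g _ _ d
    exact Or.inl ⟨by omega, by omega⟩

def draw (n : ℕ) : Drawing fun u v : Fin n => Ed u v where
  pos u := ps u
  len _ _ := 1
  pt u v i := if i = 0 then ps u else ps v
  inj _ _ h := Fin.ext (ps_inj h)
  ends _ _ _ := ⟨rfl, rfl⟩
  up u v e i hi := by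
    obtain rfl : i = 0 := by omega
    unfold Ed at e
    rw [if_pos rfl, if_neg (by omega), ps, ps, if_pos e.1, if_neg (by omega), sg]
    split_ifs <;> simp only <;> omega
  planar u v u' v' e e' ne z := by
    rintro ⟨⟨i, hi, a⟩, ⟨j, hj, b⟩⟩
    obtain rfl : i = 0 := by omega
    obtain rfl : j = 0 := by omega
    simp only [if_true, zero_add, one_ne_zero, if_false] at a b
    have : (u.val / 4 ≤ u'.val / 4 ∧ v.val / 4 ≤ v'.val / 4) ∨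
        (u'.val / 4 ≤ u.val / 4 ∧ v'.val / 4 ≤ v.val / 4) := by
      unfold Ed at e e'; omega
    rcases this with ⟨c, d⟩ | ⟨c, d⟩
    · rcases pl e e' c d a b with ⟨f, g⟩ | ⟨f, g⟩ | ⟨f, g⟩
      · exact absurd (Prod.ext (Fin.ext f) (Fin.ext g)) ne
      · exact ⟨u, Or.inl rfl, Or.inl (Fin.ext f), g⟩
      · exact ⟨v, Or.inr rfl, Or.inr (Fin.ext f), g⟩
    · rcases pl e' e c d b a with ⟨f, g⟩ | ⟨f, g⟩ | ⟨f, g⟩
      · exact absurd (Prod.ext (Fin.ext f.symm) (Fin.ext g.symm)) ne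
      · exact ⟨u', Or.inl (Fin.ext f), Or.inl rfl, g⟩
      · exact ⟨v', Or.inr (Fin.ext f), Or.inr rfl, g⟩

theorem final (n : ℕ) (hn : 32 ≤ n) : ∃ E : Fin n → Fin n → Prop, BipDAG E ∧
    (∀ v, ∃ u, E u v ∨ E v u) ∧ (∃ D : Drawing E, ∀ u v, D.len u v = 1) ∧
    ∀ (D : Drawing E) (x0 x1 y0 y1 : ℝ),
      (∀ u v, E u v → chain (D.len u v) (D.pt u v) ⊆ Icc x0 x1 ×ˢ Icc y0 y1) →
      (n : ℝ) / 16 ≤ x1 - x0 ∧ (n : ℝ) / 16 ≤ y1 - y0 ∧
        (n : ℝ) ^ 2 / 256 ≤ (x1 - x0) * (y1 - y0) := by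
  refine ⟨fun u v => Ed u v, ⟨{u | (u.val / 2) % 2 = 0}, fun u v e => ⟨e.1, ?_⟩⟩, fun v => ?_,
    ⟨draw n, fun _ _ => rfl⟩, fun D x0 x1 y0 y1 hb => ?_⟩
  · unfold Ed at e
    simp only [mem_ofPred_eq]; omega
  · by_cases c : v.val < 2
    · exact ⟨⟨2, by omega⟩, by unfold Ed; simp only; omega⟩
    · exact ⟨⟨v - 2, by omega⟩, by unfold Ed; simp only; omega⟩
  · obtain ⟨a, b⟩ := lower hn D hb
    have : (0 : ℝ) ≤ n / 16 := by positivity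
    refine ⟨a, b, ?_⟩
    calc (n : ℝ) ^ 2 / 256 = n / 16 * (n / 16) := by ring
      _ ≤ _ := mul_le_mul a b this (this.trans a)

end Pool.Agent.H.MP_9caa86_co
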